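import Mathlib

/-!
# Linear independence of high powers of polynomials

If `q₁, …, q_m ∈ ℂ[X]` are pairwise non-proportional and `m² ≤ d`, then `q₁^d, …, q_m^d` are
linearly independent over `ℂ`.  The proof uses a Wronskian for the Euler operator `X d/dX`.
-/

namespace Pool.Agent.Helper62

open Polynomial Finset

/-- The Euler operator `f ↦ X f'`. -/
noncomputable def eu (f : ℂ[X]) : ℂ[X] := X * derivative f

theorem coeff_eu (f : ℂ[X]) (n : ℕ) : (eu f).coeff n = (n : ℂ) * f.coeff n := by
  cases n with
  | zero => simp [eu]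
  | succ n =>
    rw [eu, coeff_X_mul, coeff_derivative]
    push_cast
    ring

theorem coeff_eu_iter (f : ℂ[X]) (i n : ℕ) :
    (eu^[i] f).coeff n = (n : ℂ) ^ i * f.coeff n := by
  induction i generalizing f with
  | zero => simp
  | succ i ih =>
    rw [Function.iterate_succ_apply, ih, coeff_eu]
    ring

theorem natDegree_eu_iter_le (f : ℂ[X]) (i : ℕ) : (eu^[i] f).natDegree ≤ f.natDegree := by
  rw [natDegree_le_iff_coeff_eq_zero]
  intro n hn
  rw [coeff_eu_iter, coeff_eq_zero_of_natDegree_lt hn, mul_zero]

theorem eu_iter_add (f g : ℂ[X]) (i : ℕ) : eu^[i] (f + g) = eu^[i] f + eu^[i] g := by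
  ext n
  simp only [coeff_add, coeff_eu_iter]
  ring

theorem eu_iter_C_mul (a : ℂ) (f : ℂ[X]) (i : ℕ) : eu^[i] (C a * f) = C a * eu^[i] f := by
  ext n
  simp only [coeff_C_mul, coeff_eu_iter]
  ring

theorem eu_iter_sum {ι : Type*} (s : Finset ι) (f : ι → ℂ[X]) (i : ℕ) :
    eu^[i] (∑ j ∈ s, f j) = ∑ j ∈ s, eu^[i] (f j) := by
  ext n
  simp only [finsetSum_coeff, coeff_eu_iter, Finset.mul_sum]

/-- The Euler operator lowers the order of vanishing by at most one. -/
theorem pow_dvd_eu {τ : ℂ} {f : ℂ[X]} {N : ℕ} (h : (X - C τ) ^ N ∣ f) :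
    (X - C τ) ^ (N - 1) ∣ eu f := by
  cases N with
  | zero => simp
  | succ N =>
    obtain ⟨g, rfl⟩ := h
    refine ⟨X * (C ((N : ℂ) + 1) * g + (X - C τ) * derivative g), ?_⟩
    rw [eu, derivative_mul, derivative_pow]
    simp
    ring

theorem pow_dvd_eu_iter {τ : ℂ} {f : ℂ[X]} {N : ℕ} (h : (X - C τ) ^ N ∣ f) (i : ℕ) :
    (X - C τ) ^ (N - i) ∣ eu^[i] f := by
  induction i with
  | zero => simpa using h
  | succ i ih =>
    rw [Function.iterate_succ_apply']
    have := pow_dvd_eu ih
    rwa [Nat.sub_sub] at this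

/-- The Euler-Wronskian matrix. -/
noncomputable def wr {n : ℕ} (f : Fin n → ℂ[X]) : Matrix (Fin n) (Fin n) ℂ[X] :=
  Matrix.of fun i j => eu^[(i : ℕ)] (f j)

theorem coeff_prod_sum_of_natDegree_le {ι : Type*} (s : Finset ι) (f : ι → ℂ[X]) (b : ι → ℕ)
    (h : ∀ i ∈ s, (f i).natDegree ≤ b i) :
    (∏ i ∈ s, f i).natDegree ≤ ∑ i ∈ s, b i ∧
    (∏ i ∈ s, f i).coeff (∑ i ∈ s, b i) = ∏ i ∈ s, (f i).coeff (b i) := by
  classical
  induction s using Finset.induction_on with
  | empty => simp
  | insert a s ha ih =>
    have h₁ := ih fun i hi => h i (Finset.mem_insert_of_mem hi)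
    have h₂ := h a (Finset.mem_insert_self a s)
    rw [Finset.prod_insert ha, Finset.sum_insert ha, Finset.prod_insert ha]
    exact ⟨natDegree_mul_le_of_le h₂ h₁.1, by
      rw [coeff_mul_add_eq_of_natDegree_le h₂ h₁.1, h₁.2]⟩

theorem natDegree_wr_det_le {n : ℕ} (f : Fin n → ℂ[X]) :
    (wr f).det.natDegree ≤ ∑ j, (f j).natDegree := by
  rw [Matrix.det_apply]
  refine natDegree_sum_le_of_forall_le _ _ fun σ _ => ?_
  refine (natDegree_smul_le _ _).trans ?_
  refine (coeff_prod_sum_of_natDegree_le _ _ _ fun j _ => ?_).1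
  exact natDegree_eu_iter_le _ _

theorem wr_det_coeff {n : ℕ} (f : Fin n → ℂ[X]) :
    (wr f).det.coeff (∑ j, (f j).natDegree) =
      (∏ j, (f j).leadingCoeff) * (Matrix.vandermonde fun j => ((f j).natDegree : ℂ)).det := by
  rw [Matrix.det_apply, ← Matrix.det_transpose (Matrix.vandermonde _), Matrix.det_apply,
    finsetSum_coeff, Finset.mul_sum]
  refine Finset.sum_congr rfl fun σ _ => ?_
  have h₁ := (coeff_prod_sum_of_natDegree_le Finset.univ (fun j => wr f (σ j) j)
    (fun j => (f j).natDegree) fun j _ => natDegree_eu_iter_le _ _).2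
  have h₂ : ((Equiv.Perm.sign σ) • ∏ j, wr f (σ j) j).coeff (∑ j, (f j).natDegree) =
      (Equiv.Perm.sign σ) • (∏ j, wr f (σ j) j).coeff (∑ j, (f j).natDegree) := by
    rcases Int.units_eq_one_or (Equiv.Perm.sign σ) with h | h <;> simp [h, Units.smul_def]
  rw [h₂, h₁, mul_smul_comm]
  congr 1
  rw [← Finset.prod_mul_distrib]
  refine Finset.prod_congr rfl fun j _ => ?_
  simp only [wr, Matrix.of_apply, coeff_eu_iter, Matrix.transpose_apply, Matrix.vandermonde_apply]
  rw [mul_comm]
  rfl

/-- Linearly independent polynomials have a nonzero Euler-Wronskian. -/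
theorem wr_det_ne_zero {n : ℕ} (N : ℕ) : ∀ (f : Fin n → ℂ[X]), LinearIndependent ℂ f →
    ∑ j, (f j).natDegree ≤ N → (wr f).det ≠ 0 := by
  induction N using Nat.strong_induction_on with
  | _ N ih =>
    intro f hf hN
    by_cases hinj : Function.Injective fun j => (f j).natDegree
    · intro h0
      have h₁ := wr_det_coeff f
      rw [h0, coeff_zero] at h₁
      have h₂ : (∏ j, (f j).leadingCoeff) ≠ 0 :=
        Finset.prod_ne_zero_iff.2 fun j _ => leadingCoeff_ne_zero.2 (hf.ne_zero j)
      have h₃ : (Matrix.vandermonde fun j => ((f j).natDegree : ℂ)).det ≠ 0 := by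
        rw [Matrix.det_vandermonde_ne_zero_iff]
        intro i j hij
        exact hinj (Nat.cast_injective hij)
      exact mul_ne_zero h₂ h₃ h₁.symm
    · simp only [Function.Injective] at hinj
      push Not at hinj
      obtain ⟨i, j, hij, hne⟩ := hinj
      have hi0 := hf.ne_zero i
      have hj0 := hf.ne_zero j
      -- replace `f j` by `f j - c f i`
      set c : ℂ := (f j).leadingCoeff / (f i).leadingCoeff with hc
      set g : ℂ[X] := f j + C (-c) * f i with hg
      have hg0 : g ≠ 0 := by
        intro h0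
        have := (linearIndependent_iff'.1 hf) {i, j} (fun k => if k = j then 1 else -c) (by
          rw [Finset.sum_pair hne]
          simp only [hne, if_false, if_true, one_smul]
          rw [← C_mul', add_comm]
          exact h0) j (by simp)
        simp at this
      have hdeg : g.natDegree < (f j).natDegree := by
        have hle : g.natDegree ≤ (f j).natDegree := by
          refine natDegree_add_le_of_degree_le le_rfl ?_
          refine (natDegree_C_mul_le _ _).trans ?_
          exact hij.le
        refine lt_of_le_of_ne hle ?_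
        intro heq
        have hlc : g.leadingCoeff = 0 := by
          rw [leadingCoeff, heq, hg, coeff_add, coeff_C_mul]
          have : (f i).coeff (f j).natDegree = (f i).leadingCoeff := by
            rw [leadingCoeff]
            exact congrArg _ hij.symm
          rw [this, coeff_natDegree, hc]
          have : (f i).leadingCoeff ≠ 0 := leadingCoeff_ne_zero.2 hi0
          field_simp
          ring
        exact hg0 (leadingCoeff_eq_zero.1 hlc)
      set f' : Fin n → ℂ[X] := Function.update f j g with hf'
      have hf'i : LinearIndependent ℂ f' := by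
        rw [linearIndependent_iff']
        intro s a ha
        -- use all of univ
        have ha' : ∑ k, (if k ∈ s then a k else 0) • f' k = 0 := by
          rw [← ha]
          rw [← Finset.sum_filter_add_sum_filter_not Finset.univ (fun k => k ∈ s)]
          have e₁ : ∑ x ∈ Finset.univ.filter (fun k => k ∉ s),
              (if x ∈ s then a x else 0) • f' x = 0 := by
            refine Finset.sum_eq_zero fun x hx => ?_
            rw [Finset.mem_filter] at hx
            simp [hx.2]
          rw [e₁, add_zero]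
          refine Finset.sum_congr (by ext; simp) fun x hx => ?_
          simp [hx]
        set b : Fin n → ℂ := fun k => if k ∈ s then a k else 0 with hb
        have h₁ : ∑ k, (b k + if k = i then -c * b j else 0) • f k = 0 := by
          have e₂ : ∀ k, b k • f' k = b k • f k + (if k = j then b j • (C (-c) * f i) else 0) := by
            intro k
            by_cases hk : k = j
            · subst hk
              simp only [hf', Function.update_self, hg, if_true, smul_add]
            · simp [hf', hk]
          rw [Finset.sum_congr rfl fun k _ => e₂ k] at ha'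
          rw [Finset.sum_add_distrib, Finset.sum_ite_eq'] at ha'
          simp only [Finset.mem_univ, if_true] at ha'
          rw [← ha']
          simp only [add_smul, Finset.sum_add_distrib, ite_smul, zero_smul, Finset.sum_ite_eq',
            Finset.mem_univ, if_true]
          congr 1
          rw [← smul_eq_C_mul, smul_smul]
          congr 1
          ring
        have h₂ := (linearIndependent_iff'.1 hf) Finset.univ _ h₁
        have hbj : b j = 0 := by
          have := h₂ j (Finset.mem_univ _)
          simpa [Ne.symm hne] using this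
        intro k hk
        have := h₂ k (Finset.mem_univ _)
        rw [hbj] at this
        simp only [mul_zero, ite_self, add_zero] at this
        simpa [hb, hk] using this
      have hsum : ∑ k, (f' k).natDegree < ∑ k, (f k).natDegree := by
        refine Finset.sum_lt_sum (fun k _ => ?_) ⟨j, Finset.mem_univ _, ?_⟩
        · by_cases hk : k = j
          · subst hk
            simp only [hf', Function.update_self]
            exact hdeg.le
          · simp [hf', Function.update_of_ne hk]
        · simp only [hf', Function.update_self]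
          exact hdeg
      have h₃ := ih (∑ k, (f' k).natDegree) (lt_of_lt_of_le hsum hN) f' hf'i le_rfl
      have h₄ : (wr f').det = (wr f).det := by
        rw [← Matrix.det_updateCol_add_smul_self (wr f) (Ne.symm hne) (C (-c))]
        congr 1
        ext a b
        by_cases hb : b = j
        · subst hb
          simp only [wr, Matrix.of_apply, hf', Function.update_self, Matrix.updateCol_self, hg,
            eu_iter_add, eu_iter_C_mul, smul_eq_mul]
        · simp [wr, hf', Function.update_of_ne hb, Matrix.updateCol_ne hb]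
      rwa [h₄] at h₃

theorem pow_dvd_wr_det {n : ℕ} (h : Fin n → ℂ[X]) (v : Fin n → ℕ) {τ : ℂ} {d D : ℕ}
    (hD : D + (n - 1) ≤ d) (hh : ∀ b, (X - C τ) ^ (d * v b) ∣ h b) :
    (X - C τ) ^ (D * ∑ b, v b) ∣ (wr h).det := by
  have h₁ : ∀ i b, (X - C τ) ^ (D * v b) ∣ wr h i b := by
    intro i b
    refine (pow_dvd_pow _ ?_).trans (pow_dvd_eu_iter (hh b) (i : ℕ))
    have hi : (i : ℕ) ≤ n - 1 := by omega
    rcases Nat.eq_zero_or_pos (v b) with hv | hv
    · simp [hv]
    · have h₂ : D * v b + (n - 1) ≤ d * v b := by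
        calc D * v b + (n - 1) ≤ D * v b + (n - 1) * v b := by
              have := Nat.mul_le_mul_left (n - 1) hv
              omega
          _ = (D + (n - 1)) * v b := by ring
          _ ≤ d * v b := Nat.mul_le_mul_right _ hD
      omega
  choose A hA using h₁
  have h₂ : wr h = Matrix.of fun i b => (X - C τ) ^ (D * v b) * (Matrix.of A) i b := by
    ext i b
    rw [Matrix.of_apply, hA i b]
    rfl
  rw [h₂, Matrix.det_mul_row, Finset.prod_pow_eq_pow_sum, ← Finset.mul_sum]
  exact dvd_mul_right _ _

/-- High powers of pairwise non-proportional polynomials are linearly independent. -/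
theorem pow_indep {ι : Type*} (s : Finset ι) : ∀ (q : ι → ℂ[X]), (∀ i ∈ s, q i ≠ 0) →
    (∀ i ∈ s, ∀ j ∈ s, i ≠ j → ∀ c : ℂ, q i ≠ C c * q j) → ∀ d : ℕ, s.card ^ 2 ≤ d →
    ∀ c : ι → ℂ, ∑ i ∈ s, C (c i) * q i ^ d = 0 → ∀ i ∈ s, c i = 0 := by
  classical
  induction s using Finset.strongInduction with
  | H s ih =>
  intro q hq0 hq d hd c hrel
  by_contra hcon
  push Not at hcon
  obtain ⟨i₀, hi₀, hci₀⟩ := hcon
  -- all coefficients are nonzero
  have hc : ∀ i ∈ s, c i ≠ 0 := by
    intro i hi h0
    have hlt : s.erase i ⊂ s := Finset.erase_ssubset hi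
    have hcard : (s.erase i).card ^ 2 ≤ d :=
      (Nat.pow_le_pow_left (Finset.card_le_card hlt.subset) 2).trans hd
    have hrel' : ∑ j ∈ s.erase i, C (c j) * q j ^ d = 0 := by
      rw [← Finset.add_sum_erase s _ hi, h0] at hrel
      simpa using hrel
    have h₁ := ih (s.erase i) hlt q (fun j hj => hq0 j (Finset.mem_of_mem_erase hj))
      (fun j hj k hk => hq j (Finset.mem_of_mem_erase hj) k (Finset.mem_of_mem_erase hk))
      d hcard c hrel' i₀ (Finset.mem_erase.2 ⟨by rintro rfl; exact hci₀ h0, hi₀⟩)
    exact hci₀ h₁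
  set k := s.card with hk
  have hkpos : 1 ≤ k := Finset.card_pos.2 ⟨i₀, hi₀⟩
  -- remove the gcd
  obtain ⟨g, hg, hgcd⟩ := Finset.extract_gcd q ⟨i₀, hi₀⟩
  set G := s.gcd q with hG
  have hG0 : G ≠ 0 := by
    intro h0
    exact hq0 i₀ hi₀ (by rw [hg i₀ hi₀, h0, zero_mul])
  have hg0 : ∀ i ∈ s, g i ≠ 0 := fun i hi h0 => hq0 i hi (by rw [hg i hi, h0, mul_zero])
  have hgprop : ∀ i ∈ s, ∀ j ∈ s, i ≠ j → ∀ a : ℂ, g i ≠ C a * g j := by
    intro i hi j hj hij a h
    refine hq i hi j hj hij a ?_
    rw [hg i hi, hg j hj, h]; ring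
  have hrelg : ∑ i ∈ s, C (c i) * g i ^ d = 0 := by
    have h₁ : G ^ d * ∑ i ∈ s, C (c i) * g i ^ d = 0 := by
      rw [← hrel, Finset.mul_sum]
      refine Finset.sum_congr rfl fun i hi => ?_
      rw [hg i hi, mul_pow]; ring
    exact (mul_eq_zero.1 h₁).resolve_left (pow_ne_zero _ hG0)
  -- the term of largest degree
  obtain ⟨j₀, hj₀, hmax⟩ := Finset.exists_max_image s (fun i => (g i).natDegree) ⟨i₀, hi₀⟩
  set t := s.erase j₀ with ht
  have htcard : t.card = k - 1 := Finset.card_erase_of_mem hj₀
  have hts : t ⊂ s := Finset.erase_ssubset hj₀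
  let e : Fin (k - 1) ≃ t := (Finset.equivFinOfCardEq htcard).symm
  set f : Fin (k - 1) → ℂ[X] := fun a => g (e a) ^ d with hf
  have sum_e : ∀ {M : Type} [AddCommMonoid M] (F : ι → M), ∑ a, F (e a) = ∑ i ∈ t, F i := by
    intro M _ F
    rw [← Finset.sum_coe_sort t F]
    exact Equiv.sum_comp e fun x : t => F x
  have hfi : LinearIndependent ℂ f := by
    rw [Fintype.linearIndependent_iff]
    intro b hb a
    set c' : ι → ℂ := fun i => if h : i ∈ t then b (e.symm ⟨i, h⟩) else 0 with hc'
    have hc'e : ∀ a, c' (e a) = b a := by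
      intro a
      simp only [hc', (e a).2, dif_pos]
      congr 1
      simp
    have h₁ : ∑ i ∈ t, C (c' i) * g i ^ d = 0 := by
      rw [← sum_e (fun i => C (c' i) * g i ^ d), ← hb]
      refine Finset.sum_congr rfl fun a _ => ?_
      rw [hc'e, ← smul_eq_C_mul]
    have h₂ := ih t hts g (fun j hj => hg0 j (hts.subset hj))
      (fun j hj k hk => hgprop j (hts.subset hj) k (hts.subset hk)) d
      ((Nat.pow_le_pow_left (Finset.card_le_card hts.subset) 2).trans hd) c' h₁ (e a) (e a).2
    rwa [hc'e] at h₂
  have hW : (wr f).det ≠ 0 := wr_det_ne_zero _ f hfi le_rfl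
  set D := d - (k - 2) with hDdef
  have hkd : k * k ≤ d := by rw [← sq]; exact hd
  have hDk : D + ((k - 1) - 1) ≤ d := by
    have : k ≤ k * k := Nat.le_mul_of_pos_left k hkpos
    omega
  -- local estimate
  have hloc : ∀ τ : ℂ, (X - C τ) ^ (D * ∑ j ∈ s, (g j).rootMultiplicity τ) ∣ (wr f).det := by
    intro τ
    have hdvd : ∀ i, (X - C τ) ^ (d * (g i).rootMultiplicity τ) ∣ g i ^ d := by
      intro i
      rw [mul_comm, pow_mul]
      exact pow_dvd_pow_of_dvd (pow_rootMultiplicity_dvd _ _) d
    obtain ⟨j₁, hj₁, hv₁⟩ : ∃ j ∈ s, (g j).rootMultiplicity τ = 0 := by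
      by_contra hall
      push Not at hall
      have : (X - C τ) ∣ s.gcd g := by
        refine Finset.dvd_gcd fun j hj => ?_
        exact (dvd_pow_self _ (hall j hj)).trans (pow_rootMultiplicity_dvd _ _)
      rw [hgcd] at this
      exact (Polynomial.not_isUnit_X_sub_C τ) (isUnit_of_dvd_one this)
    by_cases hj : j₁ = j₀
    · subst hj
      have h₁ := pow_dvd_wr_det f (fun a => (g (e a)).rootMultiplicity τ) hDk
        (fun b => hdvd (e b))
      rw [sum_e (fun i => (g i).rootMultiplicity τ)] at h₁
      rwa [← Finset.add_sum_erase s _ hj₀, hv₁, zero_add]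
    · have hj₁t : j₁ ∈ t := Finset.mem_erase.2 ⟨hj, hj₁⟩
      set a₁ := e.symm ⟨j₁, hj₁t⟩ with ha₁
      have hea₁ : ((e a₁ : t) : ι) = j₁ := by rw [ha₁, Equiv.apply_symm_apply]
      set h : Fin (k - 1) → ℂ[X] := Function.update f a₁ (g j₀ ^ d) with hh
      set v : Fin (k - 1) → ℕ := Function.update (fun a => (g (e a)).rootMultiplicity τ) a₁
        ((g j₀).rootMultiplicity τ) with hv
      have h₁ : (X - C τ) ^ (D * ∑ b, v b) ∣ (wr h).det := by
        refine pow_dvd_wr_det h v hDk fun b => ?_
        by_cases hb : b = a₁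
        · subst hb
          simp only [hh, hv, Function.update_self]
          exact hdvd j₀
        · simp only [hh, hv, Function.update_of_ne hb]
          exact hdvd (e b)
      have h₂ : ∑ b, v b = ∑ j ∈ s, (g j).rootMultiplicity τ := by
        rw [hv, Finset.sum_update_of_mem (Finset.mem_univ _)]
        rw [← Finset.add_sum_erase s _ hj₀]
        congr 1
        rw [← ht, ← sum_e (fun i => (g i).rootMultiplicity τ)]
        rw [← Finset.add_sum_erase Finset.univ _ (Finset.mem_univ a₁), hea₁, hv₁, zero_add]
        refine Finset.sum_congr ?_ fun _ _ => rfl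
        ext; simp
      -- the two Wronskians are proportional
      set γ : Fin (k - 1) → ℂ := Function.update (fun b => - c (e b) / c j₁) a₁
        (- c j₀ / c j₁) with hγ
      have hrel₁ : g j₁ ^ d = ∑ b, C (γ b) * h b := by
        have hcj₁ : c j₁ ≠ 0 := hc j₁ hj₁
        have h₃ : ∑ b, C (γ b) * h b = C (- c j₀ / c j₁) * g j₀ ^ d +
            ∑ b ∈ Finset.univ.erase a₁, C (- c (e b) / c j₁) * f b := by
          rw [← Finset.add_sum_erase Finset.univ _ (Finset.mem_univ a₁)]
          congr 1
          · simp [hγ, hh]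
          · refine Finset.sum_congr rfl fun b hb => ?_
            have hb' : b ≠ a₁ := (Finset.mem_erase.1 hb).1
            simp [hγ, hh, Function.update_of_ne hb']
        have h₄ : ∑ b ∈ Finset.univ.erase a₁, C (- c (e b) / c j₁) * f b =
            (∑ i ∈ t, C (- c i / c j₁) * g i ^ d) - C (-1) * g j₁ ^ d := by
          rw [← sum_e (fun i => C (- c i / c j₁) * g i ^ d)]
          rw [← Finset.add_sum_erase Finset.univ _ (Finset.mem_univ a₁), hea₁]
          have : - c j₁ / c j₁ = -1 := by rw [neg_div, div_self hcj₁]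
          rw [this]
          ring
        have h₅ : C (- c j₀ / c j₁) * g j₀ ^ d + ∑ i ∈ t, C (- c i / c j₁) * g i ^ d = 0 := by
          rw [ht, Finset.add_sum_erase s (fun i => C (- c i / c j₁) * g i ^ d) hj₀]
          have : ∑ i ∈ s, C (- c i / c j₁) * g i ^ d = C (-1 / c j₁) *
              ∑ i ∈ s, C (c i) * g i ^ d := by
            rw [Finset.mul_sum]
            refine Finset.sum_congr rfl fun i _ => ?_
            rw [← mul_assoc, ← C_mul]
            congr 2
            ring
          rw [this, hrelg, mul_zero]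
        rw [h₃, h₄]
        have h₆ : C (-1 : ℂ) * g j₁ ^ d = - g j₁ ^ d := by
          rw [C_neg, C_1]; ring
        rw [h₆]
        linear_combination -h₅
      have hmat : wr f = (wr h).updateCol a₁ (fun r => ∑ b, (C (γ b)) • (wr h) r b) := by
        ext1 r b
        by_cases hb : b = a₁
        · subst hb
          rw [Matrix.updateCol_self]
          simp only [wr, Matrix.of_apply, smul_eq_mul]
          have : f a₁ = g j₁ ^ d := by rw [hf]; simp only [hea₁]
          rw [this, hrel₁, eu_iter_sum]
          refine Finset.sum_congr rfl fun b _ => ?_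
          rw [eu_iter_C_mul]
        · rw [Matrix.updateCol_ne hb]
          simp only [wr, Matrix.of_apply, hh, Function.update_of_ne hb]
      rw [hmat, Matrix.det_updateCol_sum, smul_eq_mul, ← h₂]
      exact h₁.mul_left _
  -- global estimate
  have hglob : D * ∑ j ∈ s, (g j).natDegree ≤ ∑ j ∈ t, d * (g j).natDegree := by
    have h₁ : D • ∑ j ∈ s, (g j).roots ≤ (wr f).det.roots := by
      rw [Multiset.le_iff_count]
      intro τ
      rw [Multiset.count_nsmul, Multiset.count_sum', count_roots]
      simp only [count_roots]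
      rw [le_rootMultiplicity_iff hW]
      exact hloc τ
    have h₂ := Multiset.card_le_card h₁
    rw [Multiset.card_nsmul, Multiset.card_sum] at h₂
    have h₃ : ∀ j, Multiset.card (g j).roots = (g j).natDegree := fun j =>
      splits_iff_card_roots.1 (IsAlgClosed.splits (g j))
    simp only [h₃] at h₂
    refine h₂.trans ((card_roots' _).trans ((natDegree_wr_det_le f).trans ?_))
    rw [← sum_e (fun j => d * (g j).natDegree)]
    refine Finset.sum_le_sum fun a _ => ?_
    simp only [hf]
    exact natDegree_pow_le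
  have hsplit : ∑ j ∈ s, (g j).natDegree = (g j₀).natDegree + ∑ j ∈ t, (g j).natDegree :=
    (Finset.add_sum_erase s (fun j => (g j).natDegree) hj₀).symm
  have hle : ∑ j ∈ s, (g j).natDegree ≤ k * (g j₀).natDegree := by
    rw [hk]
    simpa using Finset.sum_le_card_nsmul s (fun j => (g j).natDegree) (g j₀).natDegree
      fun j hj => hmax j hj
  rw [← Finset.mul_sum] at hglob
  have hk2 : 2 ≤ k := by
    by_contra hlt
    have hk1 : s.card = 1 := by omega
    obtain ⟨i, hi⟩ := Finset.card_eq_one.1 hk1
    rw [hi, Finset.sum_singleton] at hrel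
    have hi' : i ∈ s := by rw [hi]; simp
    have := mul_ne_zero (C_ne_zero.2 (hc i hi')) (pow_ne_zero d (hq0 i hi'))
    exact this hrel
  have he : (g j₀).natDegree = 0 := by
    by_contra hne
    have hpos : 0 < (g j₀).natDegree := Nat.pos_of_ne_zero hne
    set E := ∑ j ∈ s, (g j).natDegree with hE
    set T := ∑ j ∈ t, (g j).natDegree with hT
    set a := (g j₀).natDegree with ha
    have hDd : D + (k - 2) = d := by
      have : k ≤ k * k := Nat.le_mul_of_pos_left k hkpos
      omega
    obtain ⟨l, hl⟩ : ∃ l, k = l + 2 := ⟨k - 2, by omega⟩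
    rw [hl, Nat.add_sub_cancel] at hDd
    rw [hl] at hkd hle
    -- D E ≤ d T, E = a + T, D + l = d
    have h₁ : d * a ≤ l * E := by
      have : D * E + d * a ≤ d * T + d * a := by omega
      have h₂ : d * T + d * a = d * E := by rw [hsplit]; ring
      have h₃ : d * E = D * E + l * E := by rw [← hDd]; ring
      omega
    have h₂ : d * a ≤ l * ((l + 2) * a) := h₁.trans (Nat.mul_le_mul_left l hle)
    have h₃ : d * a ≤ (l * (l + 2)) * a := by rw [mul_assoc]; exact h₂
    have h₄ : d ≤ l * (l + 2) := Nat.le_of_mul_le_mul_right h₃ hpos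
    nlinarith
  have hconst : ∀ j ∈ s, (g j).natDegree = 0 := fun j hj => by
    have := hmax j hj
    omega
  obtain ⟨i, hi, j, hj, hij⟩ := Finset.one_lt_card.1 (show 1 < s.card by omega)
  have hi1 := eq_C_of_natDegree_eq_zero (hconst i hi)
  have hj1 := eq_C_of_natDegree_eq_zero (hconst j hj)
  have hj2 : (g j).coeff 0 ≠ 0 := by
    intro h0
    rw [h0, C_0] at hj1
    exact hg0 j hj hj1
  refine hgprop i hi j hj hij ((g i).coeff 0 / (g j).coeff 0) ?_
  rw [hi1, hj1, coeff_C_zero, coeff_C_zero, ← C_mul, div_mul_cancel₀ _ hj2]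

end Pool.Agent.Helper62
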