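import Pool.Agent.Helper2.QP.Basic

/-!
# Backup lemmas for QP-GREEN: winding numbers far away, traversals at a vertex
-/

set_option autoImplicit false

namespace Pool.Agent.Helper62.QPGreen

open Pool.Agent.Helper2.QP

theorem psum_congr (F G : V → Fin 4 → ℤ) (p : V) (l : List (Fin 4))
    (h : ∀ v ∈ verts p l, ∀ a, F v a = G v a) : psum F p l = psum G p l := by
  induction l generalizing p with
  | nil => rfl
  | cons a l ih =>
    simp only [psum]
    rw [h p (by simp [verts]) a, ih (p + stp a) (fun v hv b => h v (by simp [verts, hv]) b)]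

theorem psum_zero (F : V → Fin 4 → ℤ) (p : V) (l : List (Fin 4))
    (h : ∀ v ∈ verts p l, ∀ a, F v a = 0) : psum F p l = 0 := by
  induction l generalizing p with
  | nil => rfl
  | cons a l ih =>
    simp only [psum]
    rw [h p (by simp [verts]) a, ih (p + stp a) (fun v hv b => h v (by simp [verts, hv]) b), add_zero]

theorem psum_tele (G : V → ℤ) (p : V) (l : List (Fin 4)) :
    psum (fun v a => G (v + stp a) - G v) p l = G (p + dsp l) - G p := by
  induction l generalizing p with
  | nil => simp [psum, dsp]
  | cons a l ih =>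
    simp only [psum, dsp]
    rw [ih (p + stp a), add_assoc]
    ring

/-- Far to the right the winding number is zero. -/
theorem wd_far (p : V) (l : List (Fin 4)) (c : V) (h : ∀ v ∈ verts p l, v.1 ≤ c.1) : wd p l c = 0 := by
  unfold wd
  apply psum_zero
  intro v hv a
  have h1 := h v hv
  unfold wdF
  rw [if_neg (by omega), if_neg (by omega)]

theorem verts_bound' (l : List (Fin 4)) (v : V) (h : v ∈ verts 0 l) :
    |v.1| + 1 ≤ l.length ∧ |v.2| + 1 ≤ l.length := by
  rw [mem_verts_zero] at h
  obtain ⟨i, hi, rfl⟩ := h
  have h1 := dsp_bound (l.take i)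
  have h2 : ((l.take i).length : ℤ) + 1 ≤ l.length := by
    rw [List.length_take]
    have : min i l.length = i := by omega
    rw [this]
    exact_mod_cast hi
  exact ⟨by unfold vtx; linarith [h1.1], by unfold vtx; linarith [h1.2]⟩

/-- Outside the box the winding number of a closed walk is zero. -/
theorem wd_eq_zero_of_large (l : List (Fin 4)) (hl : dsp l = 0) (c : V)
    (h : (l.length : ℤ) ≤ |c.1| ∨ (l.length : ℤ) + 1 ≤ |c.2|) : wd 0 l c = 0 := by
  rcases h with h | h
  · rcases le_or_gt 0 c.1 with h0 | h0
    · apply wd_far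
      intro v hv
      have h1 := (verts_bound' l v hv).1
      rw [abs_of_nonneg h0] at h
      have h2 := le_abs_self v.1
      omega
    · rw [abs_of_neg h0] at h
      have e : wd 0 l c = psum (fun v a => (if c.2 < (v + stp a).2 then (1 : ℤ) else 0) -
          (if c.2 < v.2 then (1 : ℤ) else 0)) 0 l := by
        unfold wd
        apply psum_congr
        intro v hv a
        have h1 := (verts_bound' l v hv).1
        have h2 := neg_abs_le v.1
        have h3 : c.1 < v.1 := by omega
        fin_cases a <;> simp only [wdF, stp] <;> simp <;> grind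
      rw [e, psum_tele (fun v => if c.2 < v.2 then (1 : ℤ) else 0) 0 l, hl, add_zero, sub_self]
  · unfold wd
    apply psum_zero
    intro v hv a
    have h1 := (verts_bound' l v hv).2
    have h2 := neg_abs_le v.2
    have h3 := le_abs_self v.2
    rcases abs_cases c.2 with h4 | h4
    · unfold wdF
      rw [if_neg (by omega), if_neg (by omega)]
    · unfold wdF
      rw [if_neg (by omega), if_neg (by omega)]

theorem psum_eq_sum (F : V → Fin 4 → ℤ) (p : V) (l : List (Fin 4)) :
    psum F p l = ∑ j : Fin l.length, F (p + dsp (l.take j)) l[j] := by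
  induction l generalizing p with
  | nil => simp [psum]
  | cons a l ih =>
    simp only [psum, List.length_cons]
    rw [Fin.sum_univ_succ, ih (p + stp a)]
    simp [dsp, add_assoc]

theorem stp_inj {a b : Fin 4} (h : stp a = stp b) : a = b := by
  revert h
  fin_cases a <;> fin_cases b <;> simp [stp]

theorem vtx_succ (l : List (Fin 4)) (j : ℕ) (hj : j < l.length) :
    vtx l (j + 1) = vtx l j + stp l[j] := by
  unfold vtx
  rw [List.take_succ_eq_append_getElem hj, dsp_append]
  simp [dsp]

theorem vtx_mod (l : List (Fin 4)) (h : dsp l = 0) (j : ℕ) (hj : j < l.length) :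
    vtx l ((j + 1) % l.length) = vtx l j + stp l[j] := by
  rw [← vtx_succ l j hj]
  rcases Nat.lt_or_ge (j + 1) l.length with h1 | h1
  · rw [Nat.mod_eq_of_lt h1]
  · have h2 : j + 1 = l.length := by omega
    rw [h2, Nat.mod_self]
    simp [vtx, dsp, h]

theorem trF_eq (u : V) (b : Fin 4) (p : V) (a : Fin 4) :
    trF u b p a = (if p = u ∧ a = b then 1 else 0) - (if p = u + stp b ∧ a = opp b then 1 else 0) := by
  unfold trF
  by_cases h1 : p = u ∧ a = b
  · have h2 : ¬ (p = u + stp b ∧ a = opp b) := by
      rintro ⟨h3, _⟩
      rw [h1.1] at h3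
      exact stp_ne_zero b (by simpa using h3.symm)
    rw [if_pos h1, if_pos h1, if_neg h2]
    simp
  · rw [if_neg h1, if_neg h1]
    by_cases h2 : p = u + stp b ∧ a = opp b
    · rw [if_pos h2, if_pos h2]
      simp
    · rw [if_neg h2, if_neg h2]
      simp

/-- In a self-avoiding polygon, the edges at vertex number `i`. -/
theorem tr_vtx (l : List (Fin 4)) (h : IsSAP l) (h3 : 3 ≤ l.length) (i : ℕ) (hi : i < l.length)
    (b : Fin 4) :
    tr 0 l (vtx l i) b =
      (if vtx l i + stp b = vtx l ((i + 1) % l.length) then 1 else 0) -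
      (if vtx l i + stp b = vtx l ((i + l.length - 1) % l.length) then 1 else 0) := by
  have e0 : tr 0 l (vtx l i) b =
      ∑ j : Fin l.length, ((if vtx l j = vtx l i ∧ l[j] = b then (1 : ℤ) else 0) -
        (if vtx l j = vtx l i + stp b ∧ l[j] = opp b then (1 : ℤ) else 0)) := by
    unfold tr
    rw [psum_eq_sum]
    apply Finset.sum_congr rfl
    intro j _
    rw [zero_add]
    exact trF_eq _ _ _ _
  rw [e0, Finset.sum_sub_distrib]
  congr 1
  · rw [Finset.sum_eq_single (⟨i, hi⟩ : Fin l.length)]
    · have e1 := vtx_mod l h.1 i hi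
      rw [e1]
      congr 1
      apply propext
      constructor
      · rintro ⟨_, h2⟩
        rw [← h2]
        rfl
      · intro h2
        refine ⟨rfl, ?_⟩
        exact (stp_inj (add_left_cancel h2)).symm
    · intro j _ hj
      rw [if_neg]
      rintro ⟨h1, _⟩
      apply hj
      have := vtx_inj l h j.2 hi h1
      exact Fin.ext this
    · intro h1
      exact absurd (Finset.mem_univ _) h1
  · have hj0 : (i + l.length - 1) % l.length < l.length := Nat.mod_lt _ (by omega)
    have hj1 : ((i + l.length - 1) % l.length + 1) % l.length = i := by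
      rw [Nat.mod_add_mod]
      have : i + l.length - 1 + 1 = i + l.length := by omega
      rw [this, Nat.add_mod_right, Nat.mod_eq_of_lt hi]
    rw [Finset.sum_eq_single (⟨(i + l.length - 1) % l.length, hj0⟩ : Fin l.length)]
    · have e1 := vtx_mod l h.1 _ hj0
      rw [hj1] at e1
      congr 1
      apply propext
      constructor
      · rintro ⟨h1, _⟩
        exact h1.symm
      · intro h2
        refine ⟨h2.symm, ?_⟩
        apply stp_inj
        rw [stp_opp]
        have e2 : vtx l i = vtx l i + stp b + stp l[(i + l.length - 1) % l.length] := by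
          rw [h2]
          exact e1
        rw [add_assoc, left_eq_add] at e2
        exact eq_neg_of_add_eq_zero_right e2
    · intro j _ hj
      rw [if_neg]
      rintro ⟨h1, h2⟩
      apply hj
      have e1 := vtx_mod l h.1 j j.2
      have e2 : vtx l ((j + 1) % l.length) = vtx l i := by
        rw [e1, h1]
        have h2' : l[(j : ℕ)] = opp b := h2
        rw [h2', stp_opp]
        abel
      have e3 : ((j : ℕ) + 1) % l.length = i := vtx_inj l h (Nat.mod_lt _ (by omega)) hi e2
      apply Fin.ext
      show (j : ℕ) = (i + l.length - 1) % l.length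
      have hjl := j.2
      rcases Nat.lt_or_ge ((j : ℕ) + 1) l.length with h4 | h4
      · rw [Nat.mod_eq_of_lt h4] at e3
        have : i + l.length - 1 = (j : ℕ) + l.length := by omega
        rw [this, Nat.add_mod_right, Nat.mod_eq_of_lt hjl]
      · have h5 : (j : ℕ) + 1 = l.length := by omega
        rw [h5, Nat.mod_self] at e3
        rw [← e3, zero_add, Nat.mod_eq_of_lt (by omega)]
        omega
    · intro h1
      exact absurd (Finset.mem_univ _) h1

end Pool.Agent.Helper62.QPGreen
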